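import Pool.Agent.Zk36.CO.Defs

set_option autoImplicit false

/-!
An open path between two vertices of the wired arc separates the faces at the wired arc between them
from the complementary arc.
-/

namespace Pool.Agent.Zk62.CO

open H974 Finset H342P H984P H984N Pool.Agent.Zk36.CO

/-- The boundary of a chain of edges at the vertex `(x, y)`. -/
def vb (Z : Edg → ZMod 2) (x y : ℤ) : ZMod 2 :=
  Z (x, y, true) + Z (x - 1, y, true) + Z (x, y, false) + Z (x, y - 1, false)

theorem vb_single (e : Edg) (x y : ℤ) :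
    vb (fun e' => b2 (e' = e)) x y = b2 (src e = (x, y)) + b2 (tgt e = (x, y)) := by
  obtain ⟨x0, y0, b⟩ := e
  cases b
  · have h1 : ((x, y, true) : Edg) ≠ (x0, y0, false) := by simp
    have h2 : ((x - 1, y, true) : Edg) ≠ (x0, y0, false) := by simp
    simp only [vb, b2_not_of h1, b2_not_of h2, zero_add, src_mk, tgt_false]
    have e1 : (((x, y, false) : Edg) = (x0, y0, false)) ↔ ((x0, y0) : Vtx) = (x, y) := by
      simp only [Prod.mk.injEq]; tauto
    have e2 : (((x, y - 1, false) : Edg) = (x0, y0, false)) ↔ ((x0, y0 + 1) : Vtx) = (x, y) := by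
      simp only [Prod.mk.injEq, and_true]; constructor <;> rintro ⟨h1, h2⟩ <;> constructor <;> omega
    rw [b2_congr e1, b2_congr e2]
  · have h1 : ((x, y, false) : Edg) ≠ (x0, y0, true) := by simp
    have h2 : ((x, y - 1, false) : Edg) ≠ (x0, y0, true) := by simp
    simp only [vb, b2_not_of h1, b2_not_of h2, add_zero, src_mk, tgt_true]
    have e1 : (((x, y, true) : Edg) = (x0, y0, true)) ↔ ((x0, y0) : Vtx) = (x, y) := by
      simp only [Prod.mk.injEq]; tauto
    have e2 : (((x - 1, y, true) : Edg) = (x0, y0, true)) ↔ ((x0 + 1, y0) : Vtx) = (x, y) := by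
      simp only [Prod.mk.injEq, and_true]; constructor <;> rintro ⟨h1, h2⟩ <;> constructor <;> omega
    rw [b2_congr e1, b2_congr e2]

theorem chain_of_reach {G : Set Edg} {v w : Vtx} (h : Reach G v w) :
    ∃ Z : Edg → ZMod 2, (∀ e, Z e ≠ 0 → e ∈ G) ∧
      ∀ x y, vb Z x y = b2 (v = (x, y)) + b2 (w = (x, y)) := by
  induction h with
  | refl =>
    refine ⟨fun _ => 0, fun e h => absurd rfl h, ?_⟩
    intro x y
    rw [zmod2_add_self]
    simp [vb]
  | @tail g' g'' _ hstep ih =>
    obtain ⟨Z, hZ1, hZ2⟩ := ih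
    obtain ⟨e, he, hcase⟩ := hstep
    refine ⟨fun e' => Z e' + b2 (e' = e), ?_, ?_⟩
    · intro e' h
      by_cases hee : e' = e
      · rw [hee]; exact he
      · have h' : Z e' + b2 (e' = e) ≠ 0 := h
        rw [b2_not_of hee, add_zero] at h'
        exact hZ1 e' h'
    · intro x y
      have h1 : vb (fun e' => Z e' + b2 (e' = e)) x y
          = vb Z x y + vb (fun e' => b2 (e' = e)) x y := by
        simp only [vb]; ring
      rw [h1, hZ2, vb_single]
      have h2 : b2 (src e = (x, y)) + b2 (tgt e = (x, y))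
          = b2 (g' = (x, y)) + b2 (g'' = (x, y)) := by
        rcases hcase with ⟨h3, h4⟩ | ⟨h3, h4⟩
        · rw [h3, h4]
        · rw [h3, h4, add_comm]
      rw [h2]
      have := zmod2_add_self (b2 (g' = (x, y)))
      linear_combination this

theorem sum_Ioc_pred {x r : ℤ} (h : x ≤ r) (f : ℤ → ZMod 2) :
    ∑ i ∈ Ioc (x - 1) r, f i = f x + ∑ i ∈ Ioc x r, f i := by
  have e : Ioc (x - 1) r = insert x (Ioc x r) := by
    ext i
    simp only [mem_Ioc, mem_insert]
    omega
  rw [e, sum_insert (by simp)]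

theorem wv_pos {D : Dm} (hD : D.Ok) {k : ℤ} (h0 : 0 ≤ k) (h1 : k ≤ LW D) :
    ((wv D k).2 = D.h ∧ D.l ≤ (wv D k).1 ∧ (wv D k).1 ≤ D.t) ∨
      ((wv D k).1 = D.l ∧ 0 ≤ (wv D k).2 ∧ (wv D k).2 ≤ D.h) ∨
      ((wv D k).2 = 0 ∧ D.l ≤ (wv D k).1 ∧ (wv D k).1 ≤ 0) := by
  obtain ⟨a1, a2, a3, a4, a5⟩ := hD
  unfold wv
  unfold LW at h1
  split_ifs
  · left
    exact ⟨rfl, by simp only; omega, by simp only; omega⟩
  · right; left
    exact ⟨rfl, by simp only; omega, by simp only; omega⟩
  · right; right
    exact ⟨rfl, by simp only; omega, by simp only; omega⟩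

theorem wv_inj {D : Dm} (hD : D.Ok) {k m : ℤ} (h0 : 0 ≤ k) (h1 : k ≤ LW D) (h2 : 0 ≤ m)
    (h3 : m ≤ LW D) (h : wv D k = wv D m) : k = m := by
  obtain ⟨a1, a2, a3, a4, a5⟩ := hD
  unfold wv at h
  unfold LW at h1 h3
  split_ifs at h <;> simp only [Prod.mk.injEq] at h <;> omega

theorem t_SEPW : S_SEPW := by
  intro D hD F hF i i' j hi hij hji hi' hfw hP
  obtain ⟨Z, hZ1, hZ2⟩ := chain_of_reach hP
  obtain ⟨a1, a2, a3, a4, a5⟩ := hD
  have hD : D.Ok := ⟨a1, a2, a3, a4, a5⟩
  have hZR : ∀ e, e ∉ D.edges → Z e = 0 := by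
    intro e he
    by_contra h
    exact he (hF (by exact_mod_cast (hZ1 e h).1))
  have hZW : ∀ e, e ∈ D.wir → Z e = 0 := by
    intro e he
    by_contra h
    exact (hZ1 e h).2 he
  have hZC : ∀ e, e ∉ D.cfg F → Z e = 0 := by
    intro e he
    by_contra h
    exact he (Or.inl (hZ1 e h).1)
  -- the potential
  set q : ℤ → ℤ → ZMod 2 := fun x y => ∑ k ∈ Ioc x D.r, Z (k, y, false) with hq
  have qH : ∀ x y, x ≤ D.r → q (x - 1) y = q x y + Z (x, y, false) := by
    intro x y hx
    simp only [hq]
    rw [sum_Ioc_pred hx, add_comm]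
  have qV0 : ∀ (n : ℕ) (y : ℤ), q (D.r - n) y + q (D.r - n) (y - 1) =
      Z (D.r - n, y, true) + ∑ k ∈ Ioc (D.r - n) D.r, vb Z k y := by
    intro n y
    induction n with
    | zero =>
      have h1 : Z (D.r, y, true) = 0 := hZR _ (by unfold Dm.edges; simp)
      simp [hq, h1]
    | succ n ih =>
      have e1 : D.r - ((n + 1 : ℕ) : ℤ) = (D.r - n) - 1 := by push_cast; ring
      rw [e1, qH _ _ (by omega), qH _ _ (by omega), sum_Ioc_pred (by omega)]
      have e2 : vb Z (D.r - n) y = Z (D.r - n, y, true) + Z (D.r - n - 1, y, true) +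
        Z (D.r - n, y, false) + Z (D.r - n, y - 1, false) := rfl
      rw [e2]
      have h5 := zmod2_add_self (Z (D.r - n - 1, y, true))
      linear_combination ih - h5
  have hwv : ∀ k : ℤ, 0 ≤ k → k ≤ LW D → ∀ x y x' : ℤ, D.l ≤ x → x < x' →
      (y = D.h → D.t ≤ x) → (y = 0 → 0 ≤ x) → wv D k ≠ (x', y) := by
    intro k hk0 hk1 x y x' hx hxx h1 h2 he
    have h3 := wv_pos hD hk0 hk1
    rw [he] at h3
    simp only at h3
    omega
  have hvb : ∀ x y, vb Z x y = b2 (wv D i = (x, y)) + b2 (wv D i' = (x, y)) := hZ2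
  have qV : ∀ x y, D.l ≤ x → x ≤ D.r → (y = D.h → D.t ≤ x) → (y = 0 → 0 ≤ x) →
      q x y + q x (y - 1) = Z (x, y, true) := by
    intro x y hx hxr h1 h2
    obtain ⟨n, hn⟩ := Int.eq_ofNat_of_zero_le (sub_nonneg.mpr hxr)
    have h3 := qV0 n y
    have e1 : D.r - n = x := by omega
    rw [e1] at h3
    rw [h3]
    have h4 : ∑ k ∈ Ioc x D.r, vb Z k y = 0 := by
      refine Finset.sum_eq_zero fun k hk => ?_
      rw [mem_Ioc] at hk
      rw [hvb, b2_not_of (hwv i hi (by omega) x y k hx hk.1 h1 h2),
        b2_not_of (hwv i' (by omega) hi' x y k hx hk.1 h1 h2), add_zero]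
    rw [h4, add_zero]
  -- `q` vanishes outside
  have qout : ∀ g ∈ D.outer, q g.1 g.2 = 0 := by
    intro g hg
    simp only [hq]
    refine Finset.sum_eq_zero fun k hk => ?_
    rw [mem_Ioc] at hk
    apply hZR
    unfold Dm.edges
    rw [mem_RE_false]
    rcases hg with h | h | h <;> omega
  have qpath : ∀ g f : Vtx, DReach (↑D.edges \ D.cfg F : Set Edg) g f → q g.1 g.2 = 0 →
      q f.1 f.2 = 0 := by
    intro g f h h0
    induction h with
    | refl => exact h0
    | @tail f' f'' _ hstep ih =>
      obtain ⟨⟨x0, y0, bo⟩, ⟨heR, heC⟩, hcase⟩ := hstep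
      have hZe := hZC _ heC
      cases bo
      · have hm : D.l ≤ x0 ∧ x0 ≤ D.r ∧ 0 ≤ y0 ∧ y0 < D.h := by
          unfold Dm.edges at heR
          simpa using heR
        have h3 := qH x0 y0 hm.2.1
        rw [hZe, add_zero] at h3
        simp only [dtgt_mk, dsrc_false] at hcase
        rcases hcase with ⟨h4, h5⟩ | ⟨h4, h5⟩
        · rw [← h4] at ih; rw [← h5]; simpa [h3] using ih
        · rw [← h5] at ih; rw [← h4]; simpa [h3] using ih
      · have hm : D.l ≤ x0 ∧ x0 < D.r ∧ 0 ≤ y0 ∧ y0 ≤ D.h := by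
          unfold Dm.edges at heR
          simpa using heR
        have hnw : ((x0, y0, true) : Edg) ∉ D.wir := fun h => heC (Or.inr h)
        have h3 := qV x0 y0 hm.1 hm.2.1.le (fun h => by
          by_contra hc
          exact hnw (Or.inl ⟨rfl, h, hm.1, by simp only; omega⟩)) (fun h => by
          by_contra hc
          exact hnw (Or.inr (Or.inr ⟨rfl, h, hm.1, by simp only; omega⟩)))
        rw [hZe] at h3
        have h6 := zmod2_add_self (q x0 (y0 - 1))
        have h7 : q x0 y0 = q x0 (y0 - 1) := by linear_combination h3 - h6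
        simp only [dtgt_mk, dsrc_true] at hcase
        rcases hcase with ⟨h4, h5⟩ | ⟨h4, h5⟩
        · rw [← h4] at ih; rw [← h5]; simpa [h7] using ih
        · rw [← h5] at ih; rw [← h4]; simpa [h7] using ih
  have hq0 : ∀ f ∈ D.dclu F, q f.1 f.2 = 0 := by
    rintro f ⟨g, hg, h⟩
    exact qpath g f h (qout g hg)
  -- the values along the wired arc
  have hb : ∀ k : ℤ, 0 ≤ k → k ≤ LW D → vb Z (wv D k).1 (wv D k).2 = b2 (i = k) + b2 (i' = k) := by
    intro k h0 h1
    rw [hvb]
    have e1 : (wv D i = ((wv D k).1, (wv D k).2)) ↔ i = k :=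
      ⟨fun h => wv_inj hD hi (by omega) h0 h1 h, fun h => by rw [h]⟩
    have e2 : (wv D i' = ((wv D k).1, (wv D k).2)) ↔ i' = k :=
      ⟨fun h => wv_inj hD (by omega) hi' h0 h1 h, fun h => by rw [h]⟩
    rw [b2_congr e1, b2_congr e2]
  have wir1 : ∀ x, D.l ≤ x → x < D.t → Z (x, D.h, true) = 0 :=
    fun x h1 h2 => hZW _ (Or.inl ⟨rfl, rfl, h1, h2⟩)
  have wir2 : ∀ y, 0 ≤ y → y < D.h → Z (D.l, y, false) = 0 :=
    fun y h1 h2 => hZW _ (Or.inr (Or.inl ⟨rfl, rfl, h1, h2⟩))
  have wir3 : ∀ x, D.l ≤ x → x < 0 → Z (x, 0, true) = 0 :=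
    fun x h1 h2 => hZW _ (Or.inr (Or.inr ⟨rfl, rfl, h1, h2⟩))
  have out1 : ∀ x y, (x < D.l ∨ D.r ≤ x ∨ y < 0 ∨ D.h < y) → Z (x, y, true) = 0 := by
    intro x y h
    apply hZR
    unfold Dm.edges
    rw [mem_RE_true]
    omega
  have out2 : ∀ x y, (x < D.l ∨ D.r < x ∨ y < 0 ∨ D.h ≤ y) → Z (x, y, false) = 0 := by
    intro x y h
    apply hZR
    unfold Dm.edges
    rw [mem_RE_false]
    omega
  have hbase : q (fw D 0).1 (fw D 0).2 = vb Z (wv D 0).1 (wv D 0).2 := by
    have e0 : wv D 0 = (D.t, D.h) := by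
      unfold wv
      rw [if_pos (by omega)]
      simp
    have h1 := qV D.t D.h a4 a5 (fun _ => le_rfl) (fun h => by omega)
    have h2 : q D.t D.h = 0 := qout (D.t, D.h) (Or.inr (Or.inr ⟨rfl, le_rfl, a5⟩))
    rw [h2, zero_add] at h1
    rw [e0]
    simp only [vb]
    rw [out2 D.t D.h (by omega), add_zero]
    by_cases ht : 0 < D.t - D.l
    · have e1 : fw D 0 = (D.t - 1, D.h - 1) := by
        unfold fw
        rw [if_pos ht]
        simp
      rw [e1]
      simp only
      rw [qH _ _ a5, h1, wir1 (D.t - 1) (by omega) (by omega), add_zero]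
    · have e1 : fw D 0 = (D.l, D.h - 1) := by
        unfold fw
        rw [if_neg ht, if_pos (by omega)]
        have : D.t - D.l = 0 := by omega
        simp [this]
      have e2 : D.t = D.l := by omega
      rw [e1]
      simp only
      rw [e2] at h1 ⊢
      rw [h1, out1 (D.l - 1) D.h (by omega), wir2 (D.h - 1) (by omega) (by omega)]
      ring
  have hstep : ∀ k : ℤ, 0 ≤ k → k + 1 < LW D → q (fw D (k + 1)).1 (fw D (k + 1)).2 =
      q (fw D k).1 (fw D k).2 + vb Z (wv D (k + 1)).1 (wv D (k + 1)).2 := by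
    intro k h0 h1
    unfold LW at h1
    by_cases c1 : k + 1 < D.t - D.l
    · -- top
      have e1 : fw D k = (D.t - k - 1, D.h - 1) := by unfold fw; rw [if_pos (by omega)]
      have e2 : fw D (k + 1) = (D.t - k - 1 - 1, D.h - 1) := by
        unfold fw; rw [if_pos c1]; congr 1; ring
      have e3 : wv D (k + 1) = (D.t - k - 1, D.h) := by
        unfold wv; rw [if_pos (by omega)]; congr 1; ring
      rw [e1, e2, e3]
      simp only [vb]
      rw [qH _ _ (by omega), wir1 _ (by omega) (by omega), wir1 _ (by omega) (by omega),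
        out2 _ D.h (by omega)]
      ring
    · by_cases c2 : k + 1 = D.t - D.l
      · -- upper corner
        have e1 : fw D k = (D.l, D.h - 1) := by
          unfold fw; rw [if_pos (by omega)]; congr 1; omega
        have e2 : fw D (k + 1) = (D.l, D.h - 1) := by
          unfold fw; rw [if_neg (by omega), if_pos (by omega)]; congr 1; omega
        have e3 : wv D (k + 1) = (D.l, D.h) := by
          unfold wv; rw [if_pos (by omega)]; congr 1; omega
        rw [e1, e2, e3]
        simp only [vb]
        rw [wir1 _ (by omega) (by omega), out1 (D.l - 1) _ (by omega), out2 _ D.h (by omega),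
          wir2 _ (by omega) (by omega)]
        ring
      · by_cases c3 : k + 1 < (D.t - D.l) + D.h
        · -- left side
          set y := D.h - (k + 1 - (D.t - D.l)) with hy
          have e1 : fw D k = (D.l, y) := by
            unfold fw; rw [if_neg (by omega), if_pos (by omega)]; congr 1; omega
          have e2 : fw D (k + 1) = (D.l, y - 1) := by
            unfold fw; rw [if_neg (by omega), if_pos (by omega)]
          have e3 : wv D (k + 1) = (D.l, y) := by
            unfold wv; rw [if_neg (by omega), if_pos (by omega)]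
          rw [e1, e2, e3]
          simp only [vb]
          have h3 := qV D.l y le_rfl (by omega) (by omega) (by omega)
          rw [out1 (D.l - 1) _ (by omega), wir2 _ (by omega) (by omega),
            wir2 _ (by omega) (by omega)]
          have h6 := zmod2_add_self (q D.l y)
          linear_combination h3 - h6
        · by_cases c4 : k + 1 = (D.t - D.l) + D.h
          · -- lower corner
            have e1 : fw D k = (D.l, 0) := by
              unfold fw; rw [if_neg (by omega), if_pos (by omega)]; congr 1; omega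
            have e2 : fw D (k + 1) = (D.l, 0) := by
              unfold fw; rw [if_neg (by omega), if_neg (by omega)]; congr 1; omega
            have e3 : wv D (k + 1) = (D.l, 0) := by
              unfold wv; rw [if_neg (by omega), if_pos (by omega)]; congr 1; omega
            rw [e1, e2, e3]
            simp only [vb]
            rw [wir3 _ (by omega) (by omega), out1 (D.l - 1) _ (by omega),
              wir2 _ (by omega) (by omega), out2 _ (0 - 1) (by omega)]
            ring
          · -- bottom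
            set x := D.l + (k + 1 - (D.t - D.l) - D.h) with hx
            have e1 : fw D k = (x - 1, 0) := by
              unfold fw; rw [if_neg (by omega), if_neg (by omega)]; congr 1; omega
            have e2 : fw D (k + 1) = (x, 0) := by
              unfold fw; rw [if_neg (by omega), if_neg (by omega)]
            have e3 : wv D (k + 1) = (x, 0) := by
              unfold wv; rw [if_neg (by omega), if_neg (by omega)]
            rw [e1, e2, e3]
            simp only [vb]
            have h3 := qH x 0 (by omega)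
            rw [h3, wir3 _ (by omega) (by omega), wir3 _ (by omega) (by omega),
              out2 _ (0 - 1) (by omega)]
            have h6 := zmod2_add_self (Z (x, 0, false))
            linear_combination -h6
  have hval : ∀ n : ℕ, (n : ℤ) < LW D → q (fw D n).1 (fw D n).2 =
      b2 (i ≤ n) + b2 (i' ≤ n) := by
    intro n
    induction n with
    | zero =>
      intro h
      have h1 := hb 0 le_rfl h.le
      rw [Nat.cast_zero, hbase, h1]
      have e1 : (i = 0) ↔ (i ≤ 0) := by omega
      have e2 : (i' = 0) ↔ (i' ≤ 0) := by omega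
      rw [b2_congr e1, b2_congr e2]
    | succ n ih =>
      intro h
      push_cast at h ⊢
      rw [hstep n (by omega) h, ih (by omega), hb _ (by omega) h.le]
      have key : ∀ k : ℤ, b2 (k ≤ (n : ℤ) + 1) = b2 (k ≤ (n : ℤ)) + b2 (k = (n : ℤ) + 1) := by
        intro k
        by_cases h1 : k ≤ (n : ℤ)
        · rw [b2_of (show k ≤ (n : ℤ) + 1 by omega), b2_of h1,
            b2_not_of (show ¬ k = (n : ℤ) + 1 by omega), add_zero]
        · by_cases h2 : k = (n : ℤ) + 1
          · rw [b2_of (show k ≤ (n : ℤ) + 1 by omega), b2_not_of h1, b2_of h2, zero_add]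
          · rw [b2_not_of (show ¬ k ≤ (n : ℤ) + 1 by omega), b2_not_of h1, b2_not_of h2, add_zero]
      rw [key i, key i']
      ring
  obtain ⟨n, rfl⟩ : ∃ n : ℕ, j = n := ⟨j.toNat, by omega⟩
  have h1 := hval n (by omega)
  rw [hq0 _ hfw, b2_of hij, b2_not_of (show ¬ i' ≤ (n : ℤ) by omega), add_zero] at h1
  exact absurd h1 (by decide)

end Pool.Agent.Zk62.CO
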